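import Pool.Agent.H454R3.Mono

/-!
# Baire category in the Baire space, with cylinders
-/

set_option autoImplicit false

namespace Pool.Agent.H454R3.Cat

open Pool.Agent.H454R3.Mono

variable {E : Type*}

/-- `Z` is nowhere dense -/
def NWD (Z : Set (ℕ → E)) : Prop :=
  ∀ z k, ∃ z' k', Cyl z k z' ∧ k ≤ k' ∧ ∀ w, Cyl z' k' w → w ∉ Z

theorem exists_generic [Nonempty E] (Z : ℕ → Set (ℕ → E)) (hZ : ∀ j, NWD (Z j)) :
    ∃ y : ℕ → E, ∀ j, y ∉ Z j := by
  have hstep : ∀ (j : ℕ) (s : (ℕ → E) × ℕ), ∃ s' : (ℕ → E) × ℕ, Cyl s.1 s.2 s'.1 ∧ s.2 < s'.2 ∧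
      ∀ w, Cyl s'.1 s'.2 w → w ∉ Z j := by
    intro j s
    obtain ⟨z', k', h1, h2, h3⟩ := hZ j s.1 s.2
    exact ⟨(z', k' + 1), h1, by simp only; omega, fun w hw => h3 w (hw.mono (by simp))⟩
  choose nxt hn1 hn2 hn3 using hstep
  let s : ℕ → (ℕ → E) × ℕ := fun j => Nat.rec (fun _ => Classical.arbitrary E, 0)
    (fun j s => nxt j s) j
  have hs : ∀ j, s (j + 1) = nxt j (s j) := fun j => rfl
  have hk : StrictMono fun j => (s j).2 := strictMono_nat_of_lt_succ fun j => by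
    rw [hs]; exact hn2 j (s j)
  have hkj : ∀ j, j ≤ (s j).2 := fun j => hk.id_le j
  have hy : ∀ j l, j ≤ l → Cyl (s j).1 (s j).2 (s l).1 := by
    intro j l hjl
    induction l, hjl using Nat.le_induction with
    | base => exact Cyl.refl _ _
    | succ l hl ih =>
      rw [hs]
      exact ih.trans (hn1 l (s l)) (hk.monotone hl)
  let y : ℕ → E := fun i => (s (i + 1)).1 i
  have hyj : ∀ j, Cyl (s j).1 (s j).2 y := by
    intro j i hi
    show (s (i + 1)).1 i = (s j).1 i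
    rcases le_total j (i + 1) with h | h
    · exact hy j (i + 1) h i hi
    · exact (hy (i + 1) j h i (by have := hkj (i + 1); omega)).symm
  refine ⟨y, fun j => hn3 j (s j) y ?_⟩
  rw [← hs]
  exact hyj (j + 1)

/-- A point which is good for countably many sets and avoids countably many nowhere dense sets. -/
theorem exists_good [Nonempty E] {ι κ : Type*} [Encodable ι] [Encodable κ]
    (S : ι → Set (ℕ → E)) (Z : κ → Set (ℕ → E)) (hZ : ∀ j, NWD (Z j)) :
    ∃ y : ℕ → E, (∀ j, y ∉ Z j) ∧ ∀ i, y ∈ S i → ∃ k, DenseIn (S i) y k := by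
  obtain ⟨y, hy⟩ := exists_generic (fun n : ℕ => {w : ℕ → E |
    (∃ j, Encodable.decode (α := κ ⊕ ι) n = some (Sum.inl j) ∧ w ∈ Z j) ∨
    (∃ i, Encodable.decode (α := κ ⊕ ι) n = some (Sum.inr i) ∧ w ∈ Bad (S i))}) (by
    intro n z k
    rcases h : Encodable.decode (α := κ ⊕ ι) n with _ | (j | i)
    · exact ⟨z, k, Cyl.refl _ _, le_rfl, fun w _ => by simp⟩
    · obtain ⟨z', k', h1, h2, h3⟩ := hZ j z k
      refine ⟨z', k', h1, h2, fun w hw => ?_⟩
      rintro (⟨j', hj', hwj⟩ | ⟨i', hi', hwi⟩)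
      · cases hj'
        exact h3 w hw hwj
      · cases hi'
    · obtain ⟨z', k', h1, h2, h3⟩ := bad_nowhere (S i) z k
      refine ⟨z', k', h1, h2, fun w hw => ?_⟩
      rintro (⟨j', hj', hwj⟩ | ⟨i', hi', hwi⟩)
      · cases hj'
      · cases hi'
        exact h3 w hw hwi)
  refine ⟨y, fun j hj => ?_, fun i hi => ?_⟩
  · exact hy (Encodable.encode (Sum.inl j : κ ⊕ ι)) (Or.inl ⟨j, Encodable.encodek _, hj⟩)
  · by_contra hcon
    push Not at hcon
    exact hy (Encodable.encode (Sum.inr i : κ ⊕ ι)) (Or.inr ⟨i, Encodable.encodek _, hi, hcon⟩)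

end Pool.Agent.H454R3.Cat
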