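import Pool.Agent.Helper446.Oracle

/-!
# Enumeration reducibility, relative enumerability, represented spaces: definitions and basic facts
-/

set_option autoImplicit false

namespace Pool.Agent.H454R3.EDeg

open Pool.Agent.Helper446

/-- The finite set with canonical index `u`: the positions of the digits `1` in the binary
expansion of `u`. -/
def D (u : ℕ) : Set ℕ := {i | u.testBit i = true}

/-- The set `Φ(B) = {n : (n, u) ∈ Φ for some u with D u ⊆ B}`. -/
def app (Φ : Set (ℕ × ℕ)) (B : Set ℕ) : Set ℕ := {n | ∃ u, (n, u) ∈ Φ ∧ D u ⊆ B}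

/-- Enumeration reducibility `A ≤ₑ B`. -/
def ERed (A B : Set ℕ) : Prop :=
  ∃ Φ : Set (ℕ × ℕ), REPred (fun p : ℕ × ℕ => p ∈ Φ) ∧ A = app Φ B

/-- Enumeration equivalence: `A` and `B` have the same e-degree. -/
def EEqv (A B : Set ℕ) : Prop := ERed A B ∧ ERed B A

/-- The join `A ⊕ B = {2n : n ∈ A} ∪ {2n+1 : n ∈ B}`. -/
def join (A B : Set ℕ) : Set ℕ := {m | (∃ n ∈ A, m = 2 * n) ∨ ∃ n ∈ B, m = 2 * n + 1}

open Classical in
/-- The characteristic function of `X`, as an oracle. -/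
noncomputable def chi (X : Set ℕ) : ℕ →. ℕ := fun n => Part.some (if n ∈ X then 1 else 0)

/-- A partial function is computable from `X`. -/
def PartIn (X : Set ℕ) (f : ℕ →. ℕ) : Prop := RecursiveIn {chi X} f

/-- `S` is c.e. relative to `X`: it is the domain of a partial function computable from `X`. -/
def CEIn (X S : Set ℕ) : Prop := ∃ f : ℕ →. ℕ, PartIn X f ∧ ∀ n, n ∈ S ↔ (f n).Dom

/-- The coded neighbourhood filter of the point `y` of a space with the enumerated base `U`. -/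
def Nbase {Y : Type*} (U : ℕ → Set Y) (y : Y) : Set ℕ := {e | y ∈ U e}

/-! ### Basic facts -/

theorem D_bound {u i : ℕ} (h : i ∈ D u) : i < u := by
  by_contra hc
  push Not at hc
  have h1 : u < 2 ^ i := lt_of_le_of_lt hc Nat.lt_two_pow_self
  have h2 : u.testBit i = false := Nat.testBit_lt_two_pow h1
  have h3 : u.testBit i = true := h
  rw [h2] at h3
  exact absurd h3 (by simp)

theorem app_mono {Φ : Set (ℕ × ℕ)} {B C : Set ℕ} (h : B ⊆ C) : app Φ B ⊆ app Φ C :=
  fun _ ⟨u, hu, hB⟩ => ⟨u, hu, hB.trans h⟩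

theorem join_even {A B : Set ℕ} {n : ℕ} : 2 * n ∈ join A B ↔ n ∈ A := by
  constructor
  · rintro (⟨m, hm, h⟩ | ⟨m, hm, h⟩)
    · have : n = m := by omega
      rw [this]; exact hm
    · omega
  · intro h; exact Or.inl ⟨n, h, rfl⟩

theorem join_odd {A B : Set ℕ} {n : ℕ} : 2 * n + 1 ∈ join A B ↔ n ∈ B := by
  constructor
  · rintro (⟨m, hm, h⟩ | ⟨m, hm, h⟩)
    · omega
    · have : n = m := by omega
      rw [this]; exact hm
  · intro h; exact Or.inr ⟨n, h, rfl⟩

/-- The operators, enumerated. -/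
def Op (e : ℕ) : Set (ℕ × ℕ) := {p | ∃ s, RE.wst (ℕ × ℕ) e s p = true}

theorem op_re (e : ℕ) : REPred (fun p : ℕ × ℕ => p ∈ Op e) := RE.wst_re e

theorem exists_op {Φ : Set (ℕ × ℕ)} (h : REPred (fun p : ℕ × ℕ => p ∈ Φ)) :
    ∃ e, Op e = Φ := by
  obtain ⟨e, he⟩ := RE.wst_univ h
  exact ⟨e, by ext p; exact (he p).symm⟩

theorem ered_iff {A B : Set ℕ} : ERed A B ↔ ∃ e, A = app (Op e) B := by
  constructor
  · rintro ⟨Φ, h, hA⟩
    obtain ⟨e, rfl⟩ := exists_op h
    exact ⟨e, hA⟩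
  · rintro ⟨e, h⟩
    exact ⟨Op e, op_re e, h⟩

theorem chi_eq (X : Set ℕ) : chi X = Defs.chi X := by
  funext n
  unfold chi Defs.chi Defs.chiN
  rfl

/-- Projections of sets computable from `X` are c.e. in `X`. -/
theorem ceIn_of_proj {X S : Set ℕ} {q : ℕ → ℕ → ℕ} (hq : Computable₂ q)
    (h : ∀ i, i ∈ S ↔ ∃ m, q i m ∈ X) : CEIn X S := by
  have hq' : Computable fun p : ℕ => q p.unpair.1 p.unpair.2 :=
    Computable₂.comp (f := q) hq (g := fun p : ℕ => p.unpair.1)
      (h := fun p : ℕ => p.unpair.2) (by fun_prop) (by fun_prop)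
  have h1 : Oracle.TotIn X fun p : ℕ => 1 - Defs.chiN X (q p.unpair.1 p.unpair.2) :=
    (Oracle.TotIn.of_comp (A := X) (f := fun n : ℕ => 1 - n) (by fun_prop)).comp
      (Oracle.TotIn.chi.comp (Oracle.TotIn.of_comp hq'))
  have h2 := Nat.RecursiveIn.rfind h1
  refine ⟨fun a => Nat.rfind fun n => (fun m => decide (m = 0)) <$>
      Part.some (1 - Defs.chiN X (q (Nat.unpair (Nat.pair a n)).1 (Nat.unpair (Nat.pair a n)).2)),
      ?_, fun n => ?_⟩
  · unfold PartIn
    rw [chi_eq, RecursiveIn.iff_nat]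
    exact h2
  · rw [h n]
    rw [Nat.rfind_dom]
    simp only [Part.map_eq_map, Part.map_some, Part.mem_some_iff, Nat.unpair_pair]
    constructor
    · rintro ⟨m, hm⟩
      refine ⟨m, ?_, fun _ => trivial⟩
      rw [Oracle.chiN_eq_one.2 hm]
      simp
    · rintro ⟨m, hm, -⟩
      refine ⟨m, ?_⟩
      rw [← Oracle.chiN_eq_one]
      have h3 : 1 - Defs.chiN X (q n m) = 0 := by simpa using hm.symm
      have h4 : Defs.chiN X (q n m) ≤ 1 := by
        unfold Defs.chiN; split_ifs <;> omega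
      omega

end Pool.Agent.H454R3.EDeg
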