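import Mathlib

/-!
# A combinatorial lemma on countable covers of a countable power of a countable set

Let `E` be a countable set with two distinguished elements `o1 ≠ o2`, and let countably many sets
`X n` cover `ℕ → E`. Then some `X n` is dense (in the sense of the discrete topology on `E`) in some
basic open set, and contains in this basic open set two different points which are equal at each
coordinate up to an exchange of `o1` and `o2`.
-/

set_option autoImplicit false

namespace Pool.Agent.H454R3.Mono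

variable {E : Type*}

/-- `w` agrees with `y` below `k` -/
def Cyl (y : ℕ → E) (k : ℕ) (w : ℕ → E) : Prop := ∀ i < k, w i = y i

theorem Cyl.refl (y : ℕ → E) (k : ℕ) : Cyl y k y := fun _ _ => rfl

theorem Cyl.trans {x y z : ℕ → E} {k l : ℕ} (h1 : Cyl x k y) (h2 : Cyl y l z) (hkl : k ≤ l) :
    Cyl x k z := fun i hi => (h2 i (by omega)).trans (h1 i hi)

theorem Cyl.symm {x y : ℕ → E} {k : ℕ} (h : Cyl x k y) : Cyl y k x := fun i hi => (h i hi).symm

theorem Cyl.mono {x y : ℕ → E} {k l : ℕ} (h : Cyl x l y) (hkl : k ≤ l) : Cyl x k y :=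
  fun i hi => h i (by omega)

/-- `X` is dense in the basic open set of the points agreeing with `y` below `k` -/
def DenseIn (X : Set (ℕ → E)) (y : ℕ → E) (k : ℕ) : Prop :=
  ∀ z, Cyl y k z → ∀ m, ∃ w ∈ X, Cyl z m w

theorem DenseIn.congr {X : Set (ℕ → E)} {y z : ℕ → E} {k : ℕ} (h : DenseIn X y k)
    (hz : Cyl y k z) : DenseIn X z k := fun w hw => h w (hz.trans hw le_rfl)

/-- the bad points of `X`: those near which `X` is not dense -/
def Bad (X : Set (ℕ → E)) : Set (ℕ → E) := {w | w ∈ X ∧ ∀ k, ¬ DenseIn X w k}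

theorem bad_nowhere (X : Set (ℕ → E)) (z : ℕ → E) (k : ℕ) :
    ∃ z' k', Cyl z k z' ∧ k ≤ k' ∧ ∀ w, Cyl z' k' w → w ∉ Bad X := by
  by_cases h : DenseIn X z k
  · exact ⟨z, k, Cyl.refl _ _, le_rfl, fun w hw hb => hb.2 k (h.congr hw)⟩
  · unfold DenseIn at h
    push Not at h
    obtain ⟨z', hz', m, hm⟩ := h
    exact ⟨z', max k m, hz', le_max_left _ _, fun w hw hb => hm w hb.1 (hw.mono (le_max_right _ _))⟩

variable (o1 o2 : E)

open Classical in
/-- the substitution of `o1`, `o2` at the places of `S` according to `a` -/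
noncomputable def sub (S : Set ℕ) (a : ℕ → Bool) (y : ℕ → E) : ℕ → E :=
  fun i => if i ∈ S then (bif a i then o1 else o2) else y i

theorem sub_mem {S : Set ℕ} {a : ℕ → Bool} {y : ℕ → E} {i : ℕ} (h : i ∈ S) :
    sub o1 o2 S a y i = (bif a i then o1 else o2) := by simp [sub, h]

theorem sub_not_mem {S : Set ℕ} {a : ℕ → Bool} {y : ℕ → E} {i : ℕ} (h : i ∉ S) :
    sub o1 o2 S a y i = y i := by simp [sub, h]

/-- one extension works for finitely many assignments -/
theorem ext_list (Z : Set (ℕ → E))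
    (hZ : ∀ z k, ∃ z' k', Cyl z k z' ∧ k ≤ k' ∧ ∀ w, Cyl z' k' w → w ∉ Z)
    (S : Set ℕ) (k : ℕ) (hS : ∀ i ∈ S, i < k) (y : ℕ → E) (L : List (ℕ → Bool)) :
    ∃ y' k', Cyl y k y' ∧ k ≤ k' ∧ ∀ a ∈ L, ∀ w, Cyl (sub o1 o2 S a y') k' w → w ∉ Z := by
  induction L with
  | nil => exact ⟨y, k, Cyl.refl _ _, le_rfl, fun a ha => by simp at ha⟩
  | cons a L ih =>
    obtain ⟨y', k', h1, h2, h3⟩ := ih
    obtain ⟨z, l, h4, h5, h6⟩ := hZ (sub o1 o2 S a y') k'
    let y'' : ℕ → E := fun i => if i < k' then y' i else z i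
    have h7 : Cyl y' k' y'' := fun i hi => by simp [y'', hi]
    have h8 : Cyl z l (sub o1 o2 S a y'') := by
      intro i hi
      by_cases hS' : i ∈ S
      · have h9 := h4 i (by have := hS i hS'; omega)
        rw [h9, sub_mem o1 o2 hS', sub_mem o1 o2 hS']
      · rw [sub_not_mem o1 o2 hS']
        by_cases hk : i < k'
        · have h9 := h4 i hk
          rw [h9, sub_not_mem o1 o2 hS', h7 i hk]
        · simp [y'', hk]
    have h9 : ∀ b, Cyl (sub o1 o2 S b y') k' (sub o1 o2 S b y'') := by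
      intro b i hi
      by_cases hS' : i ∈ S
      · rw [sub_mem o1 o2 hS', sub_mem o1 o2 hS']
      · rw [sub_not_mem o1 o2 hS', sub_not_mem o1 o2 hS', h7 i hi]
    refine ⟨y'', l, h1.trans h7 h2, h2.trans h5, fun b hb w hw => ?_⟩
    rcases List.mem_cons.1 hb with rfl | hb
    · exact h6 w (h8.trans hw le_rfl)
    · exact h3 b hb w ((h9 b).trans hw h5)

/-- one extension works for all assignments -/
theorem ext_all (Z : Set (ℕ → E))
    (hZ : ∀ z k, ∃ z' k', Cyl z k z' ∧ k ≤ k' ∧ ∀ w, Cyl z' k' w → w ∉ Z)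
    (S : Set ℕ) (k : ℕ) (hS : ∀ i ∈ S, i < k) (y : ℕ → E) :
    ∃ y' k', Cyl y k y' ∧ k ≤ k' ∧ ∀ a w, Cyl (sub o1 o2 S a y') k' w → w ∉ Z := by
  classical
  let L : List (ℕ → Bool) := (Finset.univ : Finset (Fin k → Bool)).toList.map
    fun f i => if h : i < k then f ⟨i, h⟩ else false
  obtain ⟨y', k', h1, h2, h3⟩ := ext_list o1 o2 Z hZ S k hS y L
  refine ⟨y', k', h1, h2, fun a w hw => ?_⟩
  refine h3 (fun i => if h : i < k then (fun j : Fin k => a j) ⟨i, h⟩ else false) ?_ w ?_
  · exact List.mem_map.2 ⟨fun j : Fin k => a j, by simp, rfl⟩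
  · intro i hi
    rw [hw i hi]
    by_cases hS' : i ∈ S
    · rw [sub_mem o1 o2 hS', sub_mem o1 o2 hS']
      simp [hS i hS']
    · rw [sub_not_mem o1 o2 hS', sub_not_mem o1 o2 hS']

/-- the states of the construction -/
structure St (E : Type*) where
  /-- the current point -/
  y : ℕ → E
  /-- the current length -/
  k : ℕ
  /-- the current slots -/
  S : Set ℕ
  /-- the slots are below the current length -/
  hS : ∀ i ∈ S, i < k

theorem step (Z : Set (ℕ → E))
    (hZ : ∀ z k, ∃ z' k', Cyl z k z' ∧ k ≤ k' ∧ ∀ w, Cyl z' k' w → w ∉ Z) (s : St E) :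
    ∃ s' : St E, Cyl s.y s.k s'.y ∧ s.k < s'.k ∧ s'.S = insert s.k s.S ∧
      ∀ a w, Cyl (sub o1 o2 s'.S a s'.y) s'.k w → w ∉ Z := by
  obtain ⟨y', k', h1, h2, h3⟩ := ext_all o1 o2 Z hZ (insert s.k s.S) (s.k + 1) (by
    intro i hi
    rcases hi with rfl | hi
    · omega
    · have := s.hS i hi; omega) s.y
  refine ⟨⟨y', k', insert s.k s.S, ?_⟩, h1.mono (by omega), by simp only; omega, rfl, h3⟩
  intro i hi
  rcases hi with rfl | hi
  · omega
  · have := s.hS i hi; omega

variable {o1 o2}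

theorem not_countable_pts {β : Type*} [Countable β] (f : (ℕ → Bool) → β) :
    ∃ a b, a ≠ b ∧ f a = f b := by
  by_contra hcon
  push Not at hcon
  have hinj : Function.Injective f := fun a b h => by
    by_contra hne
    exact hcon a b hne h
  have h1 : Countable (ℕ → Bool) := hinj.countable
  obtain ⟨g, hg⟩ := exists_surjective_nat (ℕ → Bool)
  obtain ⟨n, hn⟩ := hg (fun n => !(g n n))
  have := congrFun hn n
  simp at this

/-- **The lemma.** -/
theorem mono [Countable E] (ho : o1 ≠ o2) (X : ℕ → Set (ℕ → E)) (hX : ∀ w, ∃ n, w ∈ X n) :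
    ∃ n y k, DenseIn (X n) y k ∧ ∃ x ∈ X n, ∃ x' ∈ X n, Cyl y k x ∧ Cyl y k x' ∧ x ≠ x' ∧
      ∀ i, x i = x' i ∨ (x i = o1 ∧ x' i = o2) ∨ (x i = o2 ∧ x' i = o1) := by
  classical
  -- the construction
  have hstep : ∀ (j : ℕ) (s : St E), ∃ s' : St E, Cyl s.y s.k s'.y ∧ s.k < s'.k ∧
      s'.S = insert s.k s.S ∧ ∀ a w, Cyl (sub o1 o2 s'.S a s'.y) s'.k w → w ∉ Bad (X j) :=
    fun j s => step o1 o2 _ (bad_nowhere (X j)) s
  choose nxt hn1 hn2 hn3 hn4 using hstep
  let s0 : St E := ⟨fun _ => o1, 0, ∅, by simp⟩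
  let s : ℕ → St E := fun j => Nat.rec s0 (fun j s => nxt j s) j
  have hs : ∀ j, s (j + 1) = nxt j (s j) := fun j => rfl
  have hk : StrictMono fun j => (s j).k := strictMono_nat_of_lt_succ fun j => by
    rw [hs]; exact hn2 j (s j)
  have hkj : ∀ j, j ≤ (s j).k := fun j => hk.id_le j
  have hy : ∀ j l, j ≤ l → Cyl (s j).y (s j).k (s l).y := by
    intro j l hjl
    induction l, hjl using Nat.le_induction with
    | base => exact Cyl.refl _ _
    | succ l hl ih =>
      rw [hs]
      exact ih.trans (hn1 l (s l)) (hk.monotone hl)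
  let y : ℕ → E := fun i => (s (i + 1)).y i
  have hyj : ∀ j, Cyl (s j).y (s j).k y := by
    intro j i hi
    show (s (i + 1)).y i = (s j).y i
    rcases le_total j (i + 1) with h | h
    · exact hy j (i + 1) h i hi
    · exact (hy (i + 1) j h i (by have := hkj (i + 1); omega)).symm
  let S : Set ℕ := Set.range fun j => (s j).k
  have hSj : ∀ j, ∀ i < (s j).k, (i ∈ S ↔ i ∈ (s j).S) := by
    intro j
    have h1 : (s j).S = {i | ∃ l < j, (s l).k = i} := by
      induction j with
      | zero => ext i; simp [s, s0]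
      | succ j ih =>
        rw [hs, hn3, ih]
        ext i
        simp only [Set.mem_insert_iff, Set.mem_ofPred_eq]
        constructor
        · rintro (rfl | ⟨l, hl, rfl⟩)
          · exact ⟨j, by omega, rfl⟩
          · exact ⟨l, by omega, rfl⟩
        · rintro ⟨l, hl, rfl⟩
          rcases Nat.lt_succ_iff_lt_or_eq.1 hl with h | rfl
          · exact Or.inr ⟨l, h, rfl⟩
          · exact Or.inl rfl
    intro i hi
    rw [h1]
    constructor
    · rintro ⟨l, rfl⟩
      refine ⟨l, ?_, rfl⟩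
      by_contra hc
      push Not at hc
      have := hk.monotone hc
      simp only at this hi
      omega
    · rintro ⟨l, -, rfl⟩
      exact ⟨l, rfl⟩
  let w : (ℕ → Bool) → (ℕ → E) := fun a => sub o1 o2 S a y
  have hw : ∀ a j, w a ∉ Bad (X j) := by
    intro a j
    refine hn4 j (s j) a (w a) ?_
    rw [← hs]
    intro i hi
    by_cases h : i ∈ S
    · have h5 : i ∈ (s (j + 1)).S := (hSj (j + 1) i hi).1 h
      have h6 := sub_mem o1 o2 (a := a) (y := (s (j + 1)).y) h5
      have h7 := sub_mem o1 o2 (a := a) (y := y) h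
      exact h7.trans h6.symm
    · have h5 : i ∉ (s (j + 1)).S := fun h' => h ((hSj (j + 1) i hi).2 h')
      have h6 := sub_not_mem o1 o2 (a := a) (y := (s (j + 1)).y) h5
      have h7 := sub_not_mem o1 o2 (a := a) (y := y) h
      exact h7.trans ((hyj (j + 1) i hi).trans h6.symm)
  -- assignments from sequences
  let A : (ℕ → Bool) → (ℕ → Bool) := fun b i => decide (∃ j, (s j).k = i ∧ b j = true)
  have hA : ∀ b j, A b (s j).k = b j := by
    intro b j
    show decide (∃ l, (s l).k = (s j).k ∧ b l = true) = b j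
    cases hb : b j
    · rw [decide_eq_false_iff_not]
      rintro ⟨l, hl, hbl⟩
      rw [hk.injective hl, hb] at hbl
      exact absurd hbl (by simp)
    · rw [decide_eq_true_eq]
      exact ⟨j, rfl, hb⟩
  have hinj : ∀ b b', b ≠ b' → w (A b) ≠ w (A b') := by
    intro b b' hne h
    apply hne
    funext j
    have h1 := congrFun h (s j).k
    have hmem : (s j).k ∈ S := ⟨j, rfl⟩
    have h2 : w (A b) (s j).k = bif b j then o1 else o2 := by
      show sub o1 o2 S (A b) y _ = _
      rw [sub_mem o1 o2 hmem, hA]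
    have h3 : w (A b') (s j).k = bif b' j then o1 else o2 := by
      show sub o1 o2 S (A b') y _ = _
      rw [sub_mem o1 o2 hmem, hA]
    rw [h2, h3] at h1
    cases hb : b j <;> cases hb' : b' j <;> simp_all
  have hdense : ∀ b, ∃ n k, w (A b) ∈ X n ∧ DenseIn (X n) (w (A b)) k := by
    intro b
    obtain ⟨n, hn⟩ := hX (w (A b))
    have := hw (A b) n
    by_contra hcon
    push Not at hcon
    exact this ⟨hn, fun k => hcon n k hn⟩
  choose n k hwn hdn using hdense
  obtain ⟨b, b', hne, heq⟩ := not_countable_pts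
    (fun b => (n b, k b, List.ofFn fun i : Fin (k b) => w (A b) i))
  simp only [Prod.mk.injEq] at heq
  obtain ⟨e1, e2, e3⟩ := heq
  have hcyl : Cyl (w (A b)) (k b) (w (A b')) := by
    intro i hi
    have h1 : (List.ofFn fun i : Fin (k b) => w (A b) i)[i]? =
        (List.ofFn fun i : Fin (k b') => w (A b') i)[i]? := by rw [e3]
    rw [List.getElem?_ofFn, List.getElem?_ofFn] at h1
    rw [dif_pos hi, dif_pos (by omega)] at h1
    simpa using h1.symm
  refine ⟨n b, w (A b), k b, hdn b, w (A b), hwn b, w (A b'), ?_, Cyl.refl _ _, hcyl,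
    hinj b b' hne, ?_⟩
  · rw [e1]; exact hwn b'
  · intro i
    by_cases h : i ∈ S
    · have h2 : w (A b) i = bif A b i then o1 else o2 := sub_mem o1 o2 h
      have h3 : w (A b') i = bif A b' i then o1 else o2 := sub_mem o1 o2 h
      rw [h2, h3]
      cases A b i <;> cases A b' i <;> simp
    · left
      have h2 : w (A b) i = y i := sub_not_mem o1 o2 h
      have h3 : w (A b') i = y i := sub_not_mem o1 o2 h
      rw [h2, h3]

end Pool.Agent.H454R3.Mono
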