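import Pool.Agent.H454R3.Cat
import Pool.Agent.Helper446.Comp

/-!
# A `T₁` effective quasi-Polish space with a point which is not of cototal degree
-/

set_option autoImplicit false

namespace Pool.Agent.H454R3.QP

open Pool.Agent.H454R3.Mono Pool.Agent.H454R3.Cat Pool.Agent.Helper446

/-! ### The space -/

/-- the fact with tag `t` and argument `x` -/
def T (t x : ℕ) : ℕ := Nat.pair t x

def U (p : ℕ × List ℕ) : Prop :=
  (p.1.unpair.1 = 0 ∧ p.2 = [T 0 p.1.unpair.2, T 1 p.1.unpair.2]) ∨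
  (p.1.unpair.1 = 1 ∧ p.2 = []) ∨
  (p.1.unpair.1 = 2 ∧ p.2 =
    [T 2 (Nat.pair p.1.unpair.2.unpair.1 p.1.unpair.2.unpair.2.unpair.1),
     T 0 (Nat.pair p.1.unpair.2.unpair.1
      (p.1.unpair.2.unpair.2.unpair.1 + p.1.unpair.2.unpair.2.unpair.2))]) ∨
  (p.1.unpair.1 = 3 ∧ p.2 =
    [T 2 (Nat.pair p.1.unpair.2.unpair.1 (p.1.unpair.2.unpair.2 + 1))]) ∨
  (p.1.unpair.1 = 4 ∧ p.2 = [T 3 p.1.unpair.2.unpair.1]) ∨
  (p.1.unpair.1 = 5 ∧ p.2 = [T 3 p.1.unpair.2.unpair.1]) ∨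
  (p.1.unpair.1 = 6 ∧ p.2 = []) ∨
  (7 ≤ p.1.unpair.1 ∧ p.2 = [T (p.1.unpair.1 - 3) p.1.unpair.2])

def V (p : ℕ × List ℕ) : Prop :=
  (p.1.unpair.1 = 1 ∧ (p.2 = [T 0 p.1.unpair.2] ∨ p.2 = [T 1 p.1.unpair.2])) ∨
  (p.1.unpair.1 = 2 ∧ p.2 = [T 3 p.1.unpair.2.unpair.1]) ∨
  (p.1.unpair.1 = 3 ∧ (p.2 =
    [T 0 (Nat.pair p.1.unpair.2.unpair.1 p.1.unpair.2.unpair.2)] ∨
    p.2 = [T 3 p.1.unpair.2.unpair.1])) ∨
  (p.1.unpair.1 = 4 ∧ ∃ d, p.2 =
    [T 0 (Nat.pair p.1.unpair.2.unpair.1 (p.1.unpair.2.unpair.2 + d))]) ∨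
  (p.1.unpair.1 = 5 ∧ p.2 =
    [T 2 (Nat.pair p.1.unpair.2.unpair.1 p.1.unpair.2.unpair.2)]) ∨
  (p.1.unpair.1 = 6 ∧ ∃ n, p.2 = [T 2 (Nat.pair p.1.unpair.2 n)])

theorem U_re : REPred U := by
  unfold U T
  refine RE.or (RE.and (RE.eq (by fun_prop) (by fun_prop)) (RE.eq (by fun_prop) (by fun_prop))) ?_
  refine RE.or (RE.and (RE.eq (by fun_prop) (by fun_prop)) (RE.eq (by fun_prop) (by fun_prop))) ?_
  refine RE.or (RE.and (RE.eq (by fun_prop) (by fun_prop)) (RE.eq (by fun_prop) (by fun_prop))) ?_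
  refine RE.or (RE.and (RE.eq (by fun_prop) (by fun_prop)) (RE.eq (by fun_prop) (by fun_prop))) ?_
  refine RE.or (RE.and (RE.eq (by fun_prop) (by fun_prop)) (RE.eq (by fun_prop) (by fun_prop))) ?_
  refine RE.or (RE.and (RE.eq (by fun_prop) (by fun_prop)) (RE.eq (by fun_prop) (by fun_prop))) ?_
  refine RE.or (RE.and (RE.eq (by fun_prop) (by fun_prop)) (RE.eq (by fun_prop) (by fun_prop))) ?_
  exact RE.and (RE.le (by fun_prop) (by fun_prop)) (RE.eq (by fun_prop) (by fun_prop))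

theorem V_re : REPred V := by
  unfold V T
  refine RE.or (RE.and (RE.eq (by fun_prop) (by fun_prop))
    (RE.or (RE.eq (by fun_prop) (by fun_prop)) (RE.eq (by fun_prop) (by fun_prop)))) ?_
  refine RE.or (RE.and (RE.eq (by fun_prop) (by fun_prop)) (RE.eq (by fun_prop) (by fun_prop))) ?_
  refine RE.or (RE.and (RE.eq (by fun_prop) (by fun_prop))
    (RE.or (RE.eq (by fun_prop) (by fun_prop)) (RE.eq (by fun_prop) (by fun_prop)))) ?_
  refine RE.or (RE.and (RE.eq (by fun_prop) (by fun_prop))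
    (RE.exN (RE.eq (by fun_prop) (by fun_prop)))) ?_
  refine RE.or (RE.and (RE.eq (by fun_prop) (by fun_prop)) (RE.eq (by fun_prop) (by fun_prop))) ?_
  exact RE.and (RE.eq (by fun_prop) (by fun_prop)) (RE.exN (RE.eq (by fun_prop) (by fun_prop)))

/-- the points of the space -/
def Sp (X : Set ℕ) : Prop :=
  ∀ i : ℕ, (∃ l : List ℕ, U (i, l) ∧ ∀ k ∈ l, k ∈ X) → ∃ l : List ℕ, V (i, l) ∧ ∀ k ∈ l, k ∈ X

structure Good (X : Set ℕ) : Prop where
  c0 : ∀ a, T 0 a ∈ X → T 1 a ∉ X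
  c1 : ∀ a, T 0 a ∈ X ∨ T 1 a ∈ X
  c2 : ∀ i n d, T 2 (Nat.pair i n) ∈ X → T 0 (Nat.pair i (n + d)) ∈ X → T 3 i ∈ X
  c3 : ∀ i n, T 2 (Nat.pair i (n + 1)) ∈ X → T 0 (Nat.pair i n) ∈ X ∨ T 3 i ∈ X
  c4 : ∀ i n, T 3 i ∈ X → ∃ d, T 0 (Nat.pair i (n + d)) ∈ X
  c5 : ∀ i n, T 3 i ∈ X → T 2 (Nat.pair i n) ∈ X
  c6 : ∀ i, ∃ n, T 2 (Nat.pair i n) ∈ X
  c7 : ∀ t a, 4 ≤ t → T t a ∉ X

theorem sp_good {X : Set ℕ} (h : Sp X) : Good X := by
  refine ⟨?_, ?_, ?_, ?_, ?_, ?_, ?_, ?_⟩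
  · intro a h0 h1
    obtain ⟨l, hl, -⟩ := h (Nat.pair 0 a) ⟨[T 0 a, T 1 a], by simp [U], by simp [h0, h1]⟩
    simp [V] at hl
  · intro a
    obtain ⟨l, hl, hX⟩ := h (Nat.pair 1 a) ⟨[], by simp [U], by simp⟩
    simp only [V, Nat.unpair_pair] at hl
    norm_num at hl
    rcases hl with rfl | rfl
    · exact Or.inl (hX _ (by simp))
    · exact Or.inr (hX _ (by simp))
  · intro i n d h0 h1
    obtain ⟨l, hl, hX⟩ := h (Nat.pair 2 (Nat.pair i (Nat.pair n d)))
      ⟨[T 2 (Nat.pair i n), T 0 (Nat.pair i (n + d))], by simp [U], by simp [h0, h1]⟩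
    simp only [V, Nat.unpair_pair] at hl
    norm_num at hl
    subst hl
    exact hX _ (by simp)
  · intro i n h0
    obtain ⟨l, hl, hX⟩ := h (Nat.pair 3 (Nat.pair i n))
      ⟨[T 2 (Nat.pair i (n + 1))], by simp [U], by simp [h0]⟩
    simp only [V, Nat.unpair_pair] at hl
    norm_num at hl
    rcases hl with rfl | rfl
    · exact Or.inl (hX _ (by simp))
    · exact Or.inr (hX _ (by simp))
  · intro i n h0
    obtain ⟨l, hl, hX⟩ := h (Nat.pair 4 (Nat.pair i n))
      ⟨[T 3 i], by simp [U], by simp [h0]⟩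
    simp only [V, Nat.unpair_pair] at hl
    norm_num at hl
    obtain ⟨d, rfl⟩ := hl
    exact ⟨d, hX _ (by simp)⟩
  · intro i n h0
    obtain ⟨l, hl, hX⟩ := h (Nat.pair 5 (Nat.pair i n))
      ⟨[T 3 i], by simp [U], by simp [h0]⟩
    simp only [V, Nat.unpair_pair] at hl
    norm_num at hl
    subst hl
    exact hX _ (by simp)
  · intro i
    obtain ⟨l, hl, hX⟩ := h (Nat.pair 6 i) ⟨[], by simp [U], by simp⟩
    simp only [V, Nat.unpair_pair] at hl
    norm_num at hl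
    obtain ⟨n, rfl⟩ := hl
    exact ⟨n, hX _ (by simp)⟩
  · intro t a ht h0
    obtain ⟨l, hl, hX⟩ := h (Nat.pair (t + 3) a) ⟨[T t a], by simp [U]; omega, by simp [h0]⟩
    simp only [V, Nat.unpair_pair] at hl
    rcases hl with h | h | h | h | h | h
    all_goals omega

theorem good_sp {X : Set ℕ} (h : Good X) : Sp X := by
  rintro c ⟨l, hl, hX⟩
  obtain ⟨r, a, rfl⟩ : ∃ r a, c = Nat.pair r a := ⟨_, _, (Nat.pair_unpair c).symm⟩
  obtain ⟨i, b, rfl⟩ : ∃ i b, a = Nat.pair i b := ⟨_, _, (Nat.pair_unpair a).symm⟩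
  obtain ⟨n, d, rfl⟩ : ∃ n d, b = Nat.pair n d := ⟨_, _, (Nat.pair_unpair b).symm⟩
  simp only [U, Nat.unpair_pair] at hl
  rcases hl with ⟨rfl, rfl⟩ | ⟨rfl, rfl⟩ | ⟨rfl, rfl⟩ | ⟨rfl, rfl⟩ | ⟨rfl, rfl⟩ | ⟨rfl, rfl⟩ |
    ⟨rfl, rfl⟩ | ⟨hr, rfl⟩
  · exact absurd (hX (T 1 (Nat.pair i (Nat.pair n d))) (by simp))
      (h.c0 _ (hX (T 0 (Nat.pair i (Nat.pair n d))) (by simp)))
  · rcases h.c1 (Nat.pair i (Nat.pair n d)) with h1 | h1
    · exact ⟨[T 0 (Nat.pair i (Nat.pair n d))], by simp [V], by simpa using h1⟩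
    · exact ⟨[T 1 (Nat.pair i (Nat.pair n d))], by simp [V], by simpa using h1⟩
  · refine ⟨[T 3 i], by simp [V], ?_⟩
    simpa using h.c2 i n d (hX _ (by simp)) (hX _ (by simp))
  · rcases h.c3 i (Nat.pair n d) (hX _ (by simp)) with h1 | h1
    · exact ⟨[T 0 (Nat.pair i (Nat.pair n d))], by simp [V], by simpa using h1⟩
    · exact ⟨[T 3 i], by simp [V], by simpa using h1⟩
  · obtain ⟨e, he⟩ := h.c4 i (Nat.pair n d) (hX _ (by simp))
    exact ⟨[T 0 (Nat.pair i (Nat.pair n d + e))],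
      Or.inr (Or.inr (Or.inr (Or.inl ⟨by simp, e, by simp⟩))), by simpa using he⟩
  · have h1 := h.c5 i (Nat.pair n d) (hX _ (by simp))
    exact ⟨[T 2 (Nat.pair i (Nat.pair n d))], by simp [V], by simpa using h1⟩
  · obtain ⟨e, he⟩ := h.c6 (Nat.pair i (Nat.pair n d))
    exact ⟨[T 2 (Nat.pair (Nat.pair i (Nat.pair n d)) e)],
      Or.inr (Or.inr (Or.inr (Or.inr (Or.inr ⟨by simp, e, by simp⟩)))), by simpa using he⟩
  · exact absurd (hX (T (r - 3) (Nat.pair i (Nat.pair n d))) (by simp)) (h.c7 _ _ (by omega))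

/-- the space is `T₁` -/
theorem antichain {X Y : Set ℕ} (hX : Good X) (hY : Good Y) (h : X ⊆ Y) : X = Y := by
  refine h.antisymm ?_
  have h0 : ∀ a, T 0 a ∈ Y → T 0 a ∈ X := fun a ha =>
    (hX.c1 a).resolve_right fun h1 => hY.c0 a ha (h h1)
  have h1 : ∀ a, T 1 a ∈ Y → T 1 a ∈ X := fun a ha =>
    (hX.c1 a).resolve_left fun h1 => hY.c0 a (h h1) ha
  have h3 : ∀ i, T 3 i ∈ Y → T 3 i ∈ X := by
    intro i hi
    obtain ⟨n, hn⟩ := hX.c6 i
    obtain ⟨d, hd⟩ := hY.c4 i n hi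
    exact hX.c2 i n d hn (h0 _ hd)
  have h2 : ∀ i n, T 2 (Nat.pair i n) ∈ Y → T 2 (Nat.pair i n) ∈ X := by
    intro i n hn
    by_cases h3' : T 3 i ∈ Y
    · exact hX.c5 i n (h3 i h3')
    · obtain ⟨n', hn'⟩ := hX.c6 i
      rcases lt_trichotomy n n' with hlt | rfl | hlt
      · obtain ⟨d, rfl⟩ : ∃ d, n' = n + d + 1 := ⟨n' - n - 1, by omega⟩
        rcases hY.c3 i (n + d) (h hn') with h4 | h4
        · exact absurd (hY.c2 i n d hn h4) h3'
        · exact absurd h4 h3'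
      · exact hn'
      · obtain ⟨d, rfl⟩ : ∃ d, n = n' + d + 1 := ⟨n - n' - 1, by omega⟩
        rcases hY.c3 i (n' + d) hn with h4 | h4
        · exact absurd (hY.c2 i n' d (h hn') h4) h3'
        · exact absurd h4 h3'
  intro q hq
  obtain ⟨t, x, rfl⟩ : ∃ t x, q = Nat.pair t x := ⟨_, _, (Nat.pair_unpair q).symm⟩
  have hq' : T t x ∈ Y := hq
  show T t x ∈ X
  obtain ⟨i, n, rfl⟩ : ∃ i n, x = Nat.pair i n := ⟨_, _, (Nat.pair_unpair x).symm⟩
  rcases Nat.lt_or_ge t 4 with ht | ht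
  · interval_cases t
    · exact h0 _ hq'
    · exact h1 _ hq'
    · exact h2 _ _ hq'
    · exact h3 _ hq'
  · exact absurd hq' (hY.c7 _ _ ht)

/-! ### The points -/

/-- positions with given gaps -/
def pos (f : ℕ → ℕ) : ℕ → ℕ
  | 0 => f 0
  | n + 1 => pos f n + 1 + f (n + 1)

theorem pos_lt (f : ℕ → ℕ) (n : ℕ) : pos f n < pos f (n + 1) := by
  show pos f n < pos f n + 1 + f (n + 1)
  omega

theorem pos_mono (f : ℕ → ℕ) : StrictMono (pos f) := strictMono_nat_of_lt_succ (pos_lt f)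

theorem le_pos (f : ℕ → ℕ) (n : ℕ) : n ≤ pos f n := (pos_mono f).id_le n

theorem gap_le (f : ℕ → ℕ) (n : ℕ) : f n ≤ pos f n := by
  cases n with
  | zero => exact le_rfl
  | succ n => show f (n + 1) ≤ pos f n + 1 + f (n + 1); omega

theorem pos_congr {f g : ℕ → ℕ} {n : ℕ} (h : ∀ j ≤ n, f j = g j) : pos f n = pos g n := by
  induction n with
  | zero => exact h 0 le_rfl
  | succ n ih =>
    show pos f n + 1 + f (n + 1) = pos g n + 1 + g (n + 1)
    rw [ih fun j hj => h j (by omega), h (n + 1) le_rfl]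

/-- the alphabet: the finite set (or `none` for an infinite set) and a gap -/
abbrev E := Option (Finset ℕ) × ℕ

/-- the gaps of the coordinate `i` -/
def gap (y : ℕ → E) (i j : ℕ) : ℕ := (y (Nat.pair i j)).2

/-- the set at the coordinate `i` -/
def xs (y : ℕ → E) (i : ℕ) : Set ℕ :=
  {m | (∃ F, (y i).1 = some F ∧ m ∈ F) ∨ ((y i).1 = none ∧ ∃ n, m = pos (gap y i) n)}

/-- the facts about the bound at the coordinate `i` -/
def Lp (y : ℕ → E) (i n : ℕ) : Prop :=
  (y i).1 = none ∨ ((∀ m, n ≤ m → m ∉ xs y i) ∧ ∀ k, n = k + 1 → k ∈ xs y i)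

def code (y : ℕ → E) : Set ℕ :=
  {q | (q.unpair.1 = 0 ∧ q.unpair.2.unpair.2 ∈ xs y q.unpair.2.unpair.1) ∨
    (q.unpair.1 = 1 ∧ q.unpair.2.unpair.2 ∉ xs y q.unpair.2.unpair.1) ∨
    (q.unpair.1 = 2 ∧ Lp y q.unpair.2.unpair.1 q.unpair.2.unpair.2) ∨
    (q.unpair.1 = 3 ∧ (y q.unpair.2).1 = none)}

theorem code0 {y : ℕ → E} {i m : ℕ} : T 0 (Nat.pair i m) ∈ code y ↔ m ∈ xs y i := by
  simp [code, T]

theorem code1 {y : ℕ → E} {i m : ℕ} : T 1 (Nat.pair i m) ∈ code y ↔ m ∉ xs y i := by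
  simp [code, T]

theorem code2 {y : ℕ → E} {i m : ℕ} : T 2 (Nat.pair i m) ∈ code y ↔ Lp y i m := by
  simp [code, T]

theorem code3 {y : ℕ → E} {i : ℕ} : T 3 i ∈ code y ↔ (y i).1 = none := by
  simp [code, T]

theorem code4 {y : ℕ → E} {t a : ℕ} (h : 4 ≤ t) : T t a ∉ code y := by
  simp only [code, T, Set.mem_setOf_eq, Nat.unpair_pair]
  omega

theorem xs_none {y : ℕ → E} {i : ℕ} (h : (y i).1 = none) (m : ℕ) :
    m ∈ xs y i ↔ ∃ n, m = pos (gap y i) n := by
  simp [xs, h]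

theorem xs_some {y : ℕ → E} {i : ℕ} {F : Finset ℕ} (h : (y i).1 = some F) (m : ℕ) :
    m ∈ xs y i ↔ m ∈ F := by
  simp [xs, h]

theorem code_good (y : ℕ → E) : Good (code y) := by
  refine ⟨?_, ?_, ?_, ?_, ?_, ?_, ?_, ?_⟩
  · intro a h0 h1
    obtain ⟨i, m, rfl⟩ : ∃ i b, a = Nat.pair i b := ⟨_, _, (Nat.pair_unpair a).symm⟩
    exact code1.1 h1 (code0.1 h0)
  · intro a
    obtain ⟨i, m, rfl⟩ : ∃ i b, a = Nat.pair i b := ⟨_, _, (Nat.pair_unpair a).symm⟩
    rw [code0, code1]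
    exact em _
  · intro i n d h1 h2
    rw [code2] at h1
    rw [code0] at h2
    rw [code3]
    rcases h1 with h1 | ⟨h1, -⟩
    · exact h1
    · exact absurd h2 (h1 _ (by omega))
  · intro i n h1
    rw [code2] at h1
    rw [code0, code3]
    rcases h1 with h1 | ⟨-, h1⟩
    · exact Or.inr h1
    · exact Or.inl (h1 n rfl)
  · intro i n h1
    rw [code3] at h1
    refine ⟨pos (gap y i) n - n, ?_⟩
    rw [code0, xs_none h1]
    have := le_pos (gap y i) n
    exact ⟨n, by omega⟩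
  · intro i n h1
    rw [code3] at h1
    rw [code2]
    exact Or.inl h1
  · intro i
    rcases h : (y i).1 with _ | F
    · exact ⟨0, code2.2 (Or.inl h)⟩
    · by_cases hF : F.Nonempty
      · refine ⟨F.max' hF + 1, code2.2 (Or.inr ⟨fun m hm hx => ?_, fun k hk => ?_⟩)⟩
        · rw [xs_some h] at hx
          have := F.le_max' m hx
          omega
        · have : k = F.max' hF := by omega
          rw [xs_some h, this]
          exact F.max'_mem hF
      · refine ⟨0, code2.2 (Or.inr ⟨fun m hm hx => ?_, fun k hk => by omega⟩)⟩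
        rw [xs_some h] at hx
        exact hF ⟨m, hx⟩
  · intro t a h
    exact code4 h

/-- agreement of the facts below a bound -/
theorem code_agree {u v : ℕ → E} {k B : ℕ}
    (h1 : ∀ i, i ≠ k → i < B → (v i).1 = (u i).1)
    (h2 : ∀ i j, i ≠ k → i < B → j < B → gap v i j = gap u i j)
    (hk : (v k).1 = none) (hk' : (u k).1 ≠ none)
    (h3 : ∀ m < B, m ∈ xs u k ↔ m ∈ xs v k) :
    ∀ q < B, q ∈ code u → q ∈ code v := by
  have hxs : ∀ i m, i < B → m < B → (m ∈ xs u i ↔ m ∈ xs v i) := by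
    intro i m hi hm
    by_cases hik : i = k
    · rw [hik]; exact h3 m hm
    · rcases h : (u i).1 with _ | F
      · rw [xs_none h, xs_none ((h1 i hik hi).trans h)]
        constructor
        · rintro ⟨n, hn⟩
          refine ⟨n, hn.trans (pos_congr fun j hj => (h2 i j hik hi ?_).symm)⟩
          have := le_pos (gap u i) n
          omega
        · rintro ⟨n, hn⟩
          refine ⟨n, hn.trans (pos_congr fun j hj => (h2 i j hik hi ?_))⟩
          have := le_pos (gap v i) n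
          omega
      · rw [xs_some h, xs_some ((h1 i hik hi).trans h)]
  intro q hq hu
  obtain ⟨t, x, rfl⟩ : ∃ t x, q = Nat.pair t x := ⟨_, _, (Nat.pair_unpair q).symm⟩
  obtain ⟨i, m, rfl⟩ : ∃ i n, x = Nat.pair i n := ⟨_, _, (Nat.pair_unpair x).symm⟩
  have e1 := Nat.right_le_pair t (Nat.pair i m)
  have e2 := Nat.right_le_pair i m
  have e3 := Nat.left_le_pair i m
  change T t (Nat.pair i m) ∈ code u at hu
  show T t (Nat.pair i m) ∈ code v
  rcases Nat.lt_or_ge t 4 with ht | ht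
  · interval_cases t
    · rw [code0] at hu ⊢
      exact (hxs i m (by omega) (by omega)).1 hu
    · rw [code1] at hu ⊢
      exact fun h => hu ((hxs i m (by omega) (by omega)).2 h)
    · rw [code2] at hu ⊢
      by_cases hik : i = k
      · rw [hik]; exact Or.inl hk
      · have h4 := h1 i hik (by omega)
        rcases hu with hu | ⟨hu1, hu2⟩
        · exact Or.inl (h4.trans hu)
        · rcases h : (u i).1 with _ | F
          · exact Or.inl (h4.trans h)
          · have h5 : xs v i = xs u i := by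
              ext m; rw [xs_some h, xs_some (h4.trans h)]
            refine Or.inr ?_
            rw [h5]
            exact ⟨hu1, hu2⟩
    · rw [code3] at hu ⊢
      by_cases hik : Nat.pair i m = k
      · rw [hik]; exact hk
      · exact (h1 _ hik (by omega)).trans hu
  · exact absurd hu (code4 ht)

/-! ### The generic point -/

/-- enumeration operators -/
def Ap (e : ℕ) (X : Set ℕ) : Set ℕ :=
  {n | ∃ l : List ℕ, (∃ s, RE.wst (ℕ × List ℕ) e s (n, l) = true) ∧ ∀ k ∈ l, k ∈ X}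

theorem ap_mono {e : ℕ} {X Y : Set ℕ} (h : X ⊆ Y) : Ap e X ⊆ Ap e Y :=
  fun _ ⟨l, hl, hX⟩ => ⟨l, hl, fun k hk => h (hX k hk)⟩

theorem exists_ap {W : ℕ × List ℕ → Prop} (hW : REPred W) :
    ∃ e, ∀ X : Set ℕ, Ap e X = {n | ∃ l : List ℕ, W (n, l) ∧ ∀ k ∈ l, k ∈ X} := by
  obtain ⟨e, he⟩ := RE.wst_univ hW
  refine ⟨e, fun X => ?_⟩
  ext n
  constructor
  · rintro ⟨l, hl, hX⟩
    exact ⟨l, (he _).2 hl, hX⟩
  · rintro ⟨l, hl, hX⟩
    exact ⟨l, (he _).1 hl, hX⟩

/-- the points for which the operators `a`, `b`, `c` witness cototality of the degree -/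
def XX (n : ℕ × ℕ × ℕ) : Set (ℕ → E) :=
  {y | Ap n.1 (code y) = Ap n.2.2 (Ap n.1 (code y))ᶜ ∧ code y = Ap n.2.1 (Ap n.1 (code y))}

def SS (p : (ℕ × ℕ × ℕ) × List ℕ) : Set (ℕ → E) :=
  {y | y ∈ XX p.1 ∧ ∀ g ∈ p.2, g ∉ Ap p.1.1 (code y)}

theorem Z_nwd (m : ℕ) : NWD {y : ℕ → E | ∀ k, m ≤ k → (y k).1 ≠ none} := by
  intro z k
  refine ⟨fun i => if i < k then z i else (none, 0), max k m + 1, fun i hi => by simp [hi],
    by have := le_max_left k m; omega, fun w hw hcon => ?_⟩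
  have h1 := hw (max k m) (by omega)
  have h2 : ¬ max k m < k := by have := le_max_left k m; omega
  refine hcon (max k m) (le_max_right _ _) ?_
  rw [h1]
  simp [h2]

/-- collecting finitely many elements -/
theorem exists_list_cover {l : List ℕ} {Y : Set ℕ} {P : ℕ → List ℕ → Prop}
    (h : ∀ g ∈ l, ∃ l' : List ℕ, P g l' ∧ ∀ k ∈ l', k ∈ Y) :
    ∃ G : List ℕ, (∀ k ∈ G, k ∈ Y) ∧ ∀ g ∈ l, ∃ l' : List ℕ, P g l' ∧ ∀ k ∈ l', k ∈ G := by
  induction l with
  | nil => exact ⟨[], by simp, by simp⟩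
  | cons x l ih =>
    obtain ⟨G, hG1, hG2⟩ := ih fun g hg => h g (by simp [hg])
    obtain ⟨l', h1, h2⟩ := h x (by simp)
    refine ⟨l' ++ G, ?_, ?_⟩
    · intro k hk
      rcases List.mem_append.1 hk with hk | hk
      · exact h2 k hk
      · exact hG1 k hk
    · intro g hg
      rcases List.mem_cons.1 hg with rfl | hg
      · exact ⟨l', h1, fun k hk => List.mem_append.2 (Or.inl hk)⟩
      · obtain ⟨l'', h3, h4⟩ := hG2 g hg
        exact ⟨l'', h3, fun k hk => List.mem_append.2 (Or.inr (h4 k hk))⟩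

theorem exists_bound (l : List ℕ) : ∃ B, ∀ q ∈ l, q < B := by
  induction l with
  | nil => exact ⟨0, by simp⟩
  | cons x l ih =>
    obtain ⟨B, hB⟩ := ih
    refine ⟨max B (x + 1), fun q hq => ?_⟩
    rcases List.mem_cons.1 hq with rfl | hq
    · have := le_max_right B (q + 1); omega
    · have := le_max_left B (x + 1); have := hB q hq; omega

theorem exists_point : ∃ y : ℕ → E, ∀ n, y ∉ XX n := by
  obtain ⟨y, hyZ, hyS⟩ := exists_good (E := E) (ι := (ℕ × ℕ × ℕ) ⊕ ((ℕ × ℕ × ℕ) × List ℕ))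
    (fun i => i.elim XX SS) (fun m : ℕ => {y : ℕ → E | ∀ k, m ≤ k → (y k).1 ≠ none}) Z_nwd
  refine ⟨y, fun n hy => ?_⟩
  obtain ⟨m0, hm0⟩ := hyS (Sum.inl n) hy
  change DenseIn (XX n) y m0 at hm0
  obtain ⟨k, hk0, hk⟩ : ∃ k, m0 ≤ k ∧ (y k).1 = none := by
    have := hyZ m0
    simp only [Set.mem_setOf_eq] at this
    push Not at this
    exact this
  -- the finite set forcing the coordinate `k` to be infinite
  obtain ⟨l1, hl1, hl1C⟩ : T 3 k ∈ Ap n.2.1 (Ap n.1 (code y)) := by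
    rw [← hy.2]; exact code3.2 hk
  obtain ⟨G, hG1, hG2⟩ := exists_list_cover (l := l1) (Y := (Ap n.1 (code y))ᶜ)
    (P := fun g l' => ∃ s, RE.wst (ℕ × List ℕ) n.2.2 s (g, l') = true) (by
      intro g hg
      have h1 := hl1C g hg
      rw [hy.1] at h1
      exact h1)
  have hySS : y ∈ SS (n, G) := ⟨hy, fun g hg => hG1 g hg⟩
  have hforce : ∀ v ∈ SS (n, G), (v k).1 = none := by
    intro v hv
    rw [← code3, hv.1.2]
    refine ⟨l1, hl1, fun g hg => ?_⟩
    obtain ⟨l', hl', hlG⟩ := hG2 g hg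
    rw [hv.1.1]
    exact ⟨l', hl', fun q hq => hv.2 q (hlG q hq)⟩
  obtain ⟨m1, hm1⟩ := hyS (Sum.inr (n, G)) hySS
  change DenseIn (SS (n, G)) y m1 at hm1
  -- make the coordinate `k` finite
  let M := max m0 m1
  let F : Finset ℕ := (Finset.range M).image (pos (gap y k))
  let z : ℕ → E := fun i => if i = k then (some F, (y k).2) else y i
  have hz : Cyl y m0 z := by
    intro i hi
    have : i ≠ k := by omega
    simp [z, this]
  obtain ⟨u, hu, hzu⟩ := hm0 z hz (max M (k + 1))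
  have huk : (u k).1 = some F := by
    rw [hzu k (by have := le_max_right M (k + 1); omega)]
    simp [z]
  have huS : u ∉ SS (n, G) := by
    intro h
    have := hforce u h
    rw [huk] at this
    cases this
  obtain ⟨g, hgG, hgu⟩ : ∃ g ∈ G, g ∈ Ap n.1 (code u) := by
    by_contra hcon
    push Not at hcon
    exact huS ⟨hu, hcon⟩
  obtain ⟨l, hl, hlu⟩ := hgu
  obtain ⟨B, hB⟩ := exists_bound l
  -- make the coordinate `k` infinite again
  let z' : ℕ → E := fun i => (if i = k then none else (u i).1,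
    if i.unpair.1 = k then (if i.unpair.2 < M then (y i).2 else B) else (u i).2)
  have hz' : Cyl y m1 z' := by
    intro i hi
    have hiM : i < M := lt_of_lt_of_le hi (le_max_right _ _)
    have hui : i ≠ k → u i = y i := by
      intro hik
      rw [hzu i (by have := le_max_left M (k + 1); omega)]
      simp [z, hik]
    have h1 : (z' i).1 = (y i).1 := by
      by_cases hik : i = k
      · simp [z', hik, hk]
      · simp [z', hik, hui hik]
    have h2 : (z' i).2 = (y i).2 := by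
      by_cases hik : i.unpair.1 = k
      · have h3 : i.unpair.2 < M := lt_of_le_of_lt (Nat.unpair_right_le i) hiM
        simp [z', hik, h3]
      · by_cases hik' : i = k
        · have : (u i).2 = (y i).2 := by
            rw [hzu i (by have := le_max_left M (k + 1); omega)]
            simp [z, hik']
          simp [z', hik, this]
        · simp [z', hik, hui hik']
    exact Prod.ext h1 h2
  obtain ⟨v, hv, hzv⟩ := hm1 z' hz' (Nat.pair (max B k) (max B M) + B + 1)
  have hpair : ∀ i j, i ≤ max B k → j ≤ max B M → Nat.pair i j ≤ Nat.pair (max B k) (max B M) := by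
    intro i j hi hj
    rcases hi.lt_or_eq with hi | rfl
    · have h1 : Nat.pair i j ≤ Nat.pair i (max B M) := by
        rcases hj.lt_or_eq with hj | rfl
        · exact (Nat.pair_lt_pair_right i hj).le
        · exact le_rfl
      exact h1.trans (Nat.pair_lt_pair_left _ hi).le
    · rcases hj.lt_or_eq with hj | rfl
      · exact (Nat.pair_lt_pair_right _ hj).le
      · exact le_rfl
  have hvk : (v k).1 = none := hforce v hv
  have hgv : ∀ j ≤ max B M, gap v k j = if j < M then gap y k j else B := by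
    intro j hj
    unfold gap
    rw [hzv (Nat.pair k j) (by have := hpair k j (le_max_right _ _) hj; omega)]
    simp [z']
  have hagree := code_agree (u := u) (v := v) (k := k) (B := B)
    (by
      intro i hik hi
      rw [hzv i (by omega)]
      simp [z', hik])
    (by
      intro i j hik hi hj
      unfold gap
      rw [hzv (Nat.pair i j) (by
        have := hpair i j (by have := le_max_left B k; omega)
          (by have := le_max_left B M; omega)
        omega)]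
      simp [z', hik])
    hvk (by rw [huk]; simp)
    (by
      intro m hm
      rw [xs_some huk, xs_none hvk]
      constructor
      · intro hmF
        obtain ⟨j, hj, rfl⟩ := Finset.mem_image.1 hmF
        rw [Finset.mem_range] at hj
        refine ⟨j, pos_congr fun j' hj' => ?_⟩
        rw [hgv j' (by have := le_max_right B M; omega)]
        simp [show j' < M by omega]
      · rintro ⟨j, hj⟩
        have hjM : j < M := by
          by_contra hcon
          have h1 : pos (gap v k) M ≤ pos (gap v k) j := (pos_mono _).monotone (by omega)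
          have h2 := gap_le (gap v k) M
          rw [hgv M (le_max_right _ _)] at h2
          simp at h2
          omega
        refine Finset.mem_image.2 ⟨j, Finset.mem_range.2 hjM, ?_⟩
        rw [hj]
        refine (pos_congr fun j' hj' => ?_).symm
        rw [hgv j' (by have := le_max_right B M; omega)]
        simp [show j' < M by omega])
  exact hv.2 g hgG ⟨l, hl, fun q hq => hagree q (hB q hq) (hlu q hq)⟩

end Pool.Agent.H454R3.QP
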