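import Pool.Agent.H454R3.Mono
import Pool.Agent.H454R3.EDeg

/-!
# Half-graphs, and the countable power of a Urysohn space which is not submetrizable
-/

set_option autoImplicit false

namespace Pool.Agent.H454R3.Roy

open Pool.Agent.H454R3.EDeg Pool.Agent.H454R3.Mono

/-- The set `ω ∪ {⊥₀, ⊥₁}`. -/
inductive Tl
  | fin (k : ℕ) : Tl
  | bot0 : Tl
  | bot1 : Tl

/-- `HalfGraph(f) = {2⟨n,m⟩ : f(n) = 2m} ∪ {2⟨n,m⟩+1 : f(n) ∈ ω, f(n) ≥ 2m}`. -/
def HalfGraph (f : ℕ → Tl) : Set ℕ :=
  {q | (∃ n m, q = 2 * Nat.pair n m ∧ f n = Tl.fin (2 * m)) ∨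
    ∃ n m, q = 2 * Nat.pair n m + 1 ∧ ∃ k, f n = Tl.fin k ∧ 2 * m ≤ k}

/-- `HalfGraph⁺(f) = {2⟨n,m⟩ : f(n) = ⊥₀ or f(n) ≤ 2m} ∪ {2⟨n,m⟩+1 : f(n) = ⊥₁ or f(n) ≥ 2m}`. -/
def HalfGraphPlus (f : ℕ → Tl) : Set ℕ :=
  {q | (∃ n m, q = 2 * Nat.pair n m ∧ (f n = Tl.bot0 ∨ ∃ k, f n = Tl.fin k ∧ k ≤ 2 * m)) ∨
    ∃ n m, q = 2 * Nat.pair n m + 1 ∧ (f n = Tl.bot1 ∨ ∃ k, f n = Tl.fin k ∧ 2 * m ≤ k)}

/-- The topology of `Y` contains a coarser metrizable topology. -/
def Submetrizable (Y : Type*) [t : TopologicalSpace Y] : Prop :=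
  ∃ t' : TopologicalSpace Y, t ≤ t' ∧ @TopologicalSpace.MetrizableSpace Y t'

/-! ### The points -/

/-- The points of a factor. The point `v s c rs none` has the value `2 * rs.length + 1`, and
`v s c rs (some t)` has the value `2 * rs.length`. -/
inductive Pt
  | o (b : Bool) : Pt
  | v (s c : ℕ) (rs : List ℕ) (ot : Option ℕ) : Pt

open Pt

instance : Countable Pt := by
  have h : Function.Injective fun x : Pt => (match x with
    | o b => Sum.inl b
    | v s c rs ot => Sum.inr (s, c, rs, ot) : Bool ⊕ (ℕ × ℕ × List ℕ × Option ℕ)) := by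
    intro x y h
    cases x <;> cases y <;> simp_all
  exact h.countable

/-- The value of a point. -/
def val : Pt → Tl
  | o false => Tl.bot0
  | o true => Tl.bot1
  | v _ _ rs none => Tl.fin (2 * rs.length + 1)
  | v _ _ rs (some _) => Tl.fin (2 * rs.length)

/-- The events revealed by a point. -/
def Ev : Pt → ℕ → Prop
  | o _, _ => False
  | v s c rs ot, e => e = Nat.pair 0 (Nat.pair (rs.length + c) s) ∨
      (∃ t, ot = some t ∧ e = Nat.pair 1 (Nat.pair rs.length t)) ∨
      ∃ j r, rs[j]? = some r ∧ e = Nat.pair (j + 2) r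

/-- `x` has the value `⊥₀` or a value at most `2m`. -/
def Le (x : Pt) (m : ℕ) : Prop := val x = Tl.bot0 ∨ ∃ k, val x = Tl.fin k ∧ k ≤ 2 * m

/-- `x` has the value `⊥₁` or a value at least `2m`. -/
def Ge (x : Pt) (m : ℕ) : Prop := val x = Tl.bot1 ∨ ∃ k, val x = Tl.fin k ∧ 2 * m ≤ k

/-- `w` is in the `m`-th neighbourhood of `x`. -/
def Near (m : ℕ) (x w : Pt) : Prop :=
  (∀ e < m, (Ev x e ↔ Ev w e)) ∧ ∀ j < m, (Le x j → Le w j) ∧ (Ge x j → Ge w j)

theorem near_refl (m : ℕ) (x : Pt) : Near m x x :=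
  ⟨fun _ _ => Iff.rfl, fun _ _ => ⟨id, id⟩⟩

theorem near_bot0 {m s c t : ℕ} (hs : m ≤ s) (ht : m ≤ t) : Near m (o false) (v s c [] (some t)) := by
  refine ⟨fun e he => ?_, fun j _ => ⟨fun _ => Or.inr ⟨0, rfl, by omega⟩, fun h => ?_⟩⟩
  · constructor
    · intro h; exact h.elim
    · rintro (h | ⟨t', h, h'⟩ | ⟨j, r, h, -⟩)
      · have h1 := Nat.right_le_pair 0 (Nat.pair (([] : List ℕ).length + c) s)
        have h2 := Nat.right_le_pair (([] : List ℕ).length + c) s
        omega
      · cases h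
        have h1 := Nat.right_le_pair 1 (Nat.pair ([] : List ℕ).length t)
        have h2 := Nat.right_le_pair ([] : List ℕ).length t
        omega
      · simp at h
  · rcases h with h | ⟨k, h, -⟩ <;> simp [val] at h

theorem near_bot1 {m s c : ℕ} {rs : List ℕ} (hs : m ≤ s) (hrs : ∀ r ∈ rs, m ≤ r)
    (hl : m ≤ rs.length) : Near m (o true) (v s c rs none) := by
  refine ⟨fun e he => ?_, fun j hj => ⟨fun h => ?_, fun _ => Or.inr ⟨_, rfl, by omega⟩⟩⟩
  · constructor
    · intro h; exact h.elim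
    · rintro (h | ⟨t', h, h'⟩ | ⟨j, r, h, h'⟩)
      · have h1 := Nat.right_le_pair 0 (Nat.pair (rs.length + c) s)
        have h2 := Nat.right_le_pair (rs.length + c) s
        omega
      · simp at h
      · have h1 := Nat.right_le_pair (j + 2) r
        have h2 := hrs r (List.mem_of_getElem? h)
        omega
  · rcases h with h | ⟨k, h, -⟩ <;> simp [val] at h

theorem near_even {m s c t : ℕ} {rs : List ℕ} (ht : m ≤ t) :
    Near m (v s c rs none) (v s c rs (some t)) := by
  refine ⟨fun e he => ?_, fun j _ => ⟨fun h => ?_, fun h => ?_⟩⟩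
  · constructor
    · rintro (h | ⟨t', h, h'⟩ | h)
      · exact Or.inl h
      · simp at h
      · exact Or.inr (Or.inr h)
    · rintro (h | ⟨t', h, h'⟩ | h)
      · exact Or.inl h
      · cases h
        have h1 := Nat.right_le_pair 1 (Nat.pair rs.length t)
        have h2 := Nat.right_le_pair rs.length t
        omega
      · exact Or.inr (Or.inr h)
  · rcases h with h | ⟨k, h, h'⟩
    · simp [val] at h
    · simp only [val, Tl.fin.injEq] at h
      exact Or.inr ⟨_, rfl, by omega⟩
  · rcases h with h | ⟨k, h, h'⟩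
    · simp [val] at h
    · simp only [val, Tl.fin.injEq] at h
      exact Or.inr ⟨_, rfl, by omega⟩

theorem near_next {m s c r t : ℕ} {rs : List ℕ} (hr : m ≤ r) (ht : m ≤ t) :
    Near m (v s (c + 1) rs none) (v s c (rs ++ [r]) (some t)) := by
  have hlen : (rs ++ [r]).length = rs.length + 1 := by simp
  refine ⟨fun e he => ?_, fun j _ => ⟨fun h => ?_, fun h => ?_⟩⟩
  · constructor
    · rintro (h | ⟨t', h, h'⟩ | ⟨j, r', h, h'⟩)
      · left
        rw [hlen, h]
        congr 2
        omega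
      · simp at h
      · refine Or.inr (Or.inr ⟨j, r', ?_, h'⟩)
        rw [List.getElem?_append_left]
        · exact h
        · by_contra hc
          rw [List.getElem?_eq_none (by omega)] at h
          cases h
    · rintro (h | ⟨t', h, h'⟩ | ⟨j, r', h, h'⟩)
      · left
        rw [h, hlen]
        congr 2
        omega
      · cases h
        have h1 := Nat.right_le_pair 1 (Nat.pair (rs ++ [r]).length t)
        have h2 := Nat.right_le_pair (rs ++ [r]).length t
        omega
      · rcases Nat.lt_or_ge j rs.length with hj | hj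
        · rw [List.getElem?_append_left hj] at h
          exact Or.inr (Or.inr ⟨j, r', h, h'⟩)
        · rw [List.getElem?_append_right hj] at h
          have h3 : r' = r := by
            rcases hjj : j - rs.length with _ | a
            · rw [hjj] at h; simpa using h.symm
            · rw [hjj] at h; simp at h
          have h1 := Nat.right_le_pair (j + 2) r'
          omega
  · rcases h with h | ⟨k, h, h'⟩
    · simp [val] at h
    · simp only [val, Tl.fin.injEq] at h
      exact Or.inr ⟨_, rfl, by omega⟩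
  · rcases h with h | ⟨k, h, h'⟩
    · simp [val] at h
    · simp only [val, Tl.fin.injEq] at h
      exact Or.inr ⟨_, rfl, by omega⟩

/-! ### The code of a sequence of points -/

/-- The events of a sequence of points. -/
def ZZ (w : ℕ → Pt) : Set ℕ := {n | Ev (w n.unpair.1) n.unpair.2}

/-- The code of a sequence of points. -/
def code (w : ℕ → Pt) : Set ℕ := join (join (ZZ w) (ZZ w)ᶜ) (HalfGraphPlus fun n => val (w n))

theorem hgp_even {w : ℕ → Pt} {n m : ℕ} :
    2 * Nat.pair n m ∈ HalfGraphPlus (fun n => val (w n)) ↔ Le (w n) m := by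
  constructor
  · rintro (⟨n', m', h, h1⟩ | ⟨n', m', h, h1⟩)
    · have h2 : Nat.pair n m = Nat.pair n' m' := by omega
      obtain ⟨rfl, rfl⟩ := Nat.pair_eq_pair.1 h2
      exact h1
    · omega
  · intro h
    exact Or.inl ⟨n, m, rfl, h⟩

theorem hgp_odd {w : ℕ → Pt} {n m : ℕ} :
    2 * Nat.pair n m + 1 ∈ HalfGraphPlus (fun n => val (w n)) ↔ Ge (w n) m := by
  constructor
  · rintro (⟨n', m', h, h1⟩ | ⟨n', m', h, h1⟩)
    · omega
    · have h2 : Nat.pair n m = Nat.pair n' m' := by omega
      obtain ⟨rfl, rfl⟩ := Nat.pair_eq_pair.1 h2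
      exact h1
  · intro h
    exact Or.inr ⟨n, m, rfl, h⟩

theorem code_near {x w : ℕ → Pt} {q m : ℕ} (hq : q ∈ code x) (hqm : q < m)
    (h : ∀ i < m, Near m (x i) (w i)) : q ∈ code w := by
  rcases hq with ⟨q1, hq1, rfl⟩ | ⟨q1, hq1, rfl⟩
  · refine join_even.2 ?_
    rcases hq1 with ⟨n, hn, rfl⟩ | ⟨n, hn, rfl⟩
    · refine join_even.2 ?_
      have hn1 := Nat.unpair_left_le n
      have hn2 := Nat.unpair_right_le n
      exact ((h n.unpair.1 (by omega)).1 n.unpair.2 (by omega)).1 hn
    · refine join_odd.2 ?_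
      have hn1 := Nat.unpair_left_le n
      have hn2 := Nat.unpair_right_le n
      exact fun hc => hn (((h n.unpair.1 (by omega)).1 n.unpair.2 (by omega)).2 hc)
  · refine join_odd.2 ?_
    rcases hq1 with ⟨n, k, rfl, hn⟩ | ⟨n, k, rfl, hn⟩
    · have h1 := Nat.left_le_pair n k
      have h2 := Nat.right_le_pair n k
      exact hgp_even.2 (((h n (by omega)).2 k (by omega)).1 hn)
    · have h1 := Nat.left_le_pair n k
      have h2 := Nat.right_le_pair n k
      exact hgp_odd.2 (((h n (by omega)).2 k (by omega)).2 hn)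

theorem code_ne {x y : ℕ → Pt} {i : ℕ} (h1 : x i = o false) (h2 : y i = o true) :
    code x ≠ code y := by
  intro h
  have h3 : 2 * (2 * Nat.pair i 0) + 1 ∈ code x := by
    refine join_odd.2 (hgp_even.2 ?_)
    rw [h1]; exact Or.inl rfl
  rw [h] at h3
  have h4 := hgp_even.1 (join_odd.1 h3)
  rw [h2] at h4
  rcases h4 with h4 | ⟨k, h4, -⟩ <;> simp [val] at h4

/-! ### Continuous functions do not separate -/

/-- continuity of `G` on `X` -/
def ContOn (X : Set (ℕ → Pt)) (G : (ℕ → Pt) → ℝ) : Prop :=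
  ∀ w ∈ X, ∀ δ > 0, ∃ m0, ∀ m ≥ m0, ∀ w' ∈ X, (∀ i < m, Near m (w i) (w' i)) → |G w' - G w| < δ

/-- One half of the chain argument. -/
theorem half_chain {X : Set (ℕ → Pt)} {y0 : ℕ → Pt} {k : ℕ} (hd : DenseIn X y0 k)
    {G : (ℕ → Pt) → ℝ} (hG : ContOn X G) {x : ℕ → Pt} {δ : ℝ} {m s : ℕ}
    (hkm : k ≤ m) (hms : m ≤ s) (J : ℕ → Prop) (hJk : ∀ i < k, ¬ J i) (hxk : Cyl y0 k x)
    (hJ : ∀ i, J i → x i = o false ∨ x i = o true)
    (hx : ∀ w ∈ X, (∀ i < m, Near m (x i) (w i)) → |G w - G x| < δ)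
    {z : ℕ → Pt} (hz : z ∈ X) (hz1 : ∀ i < m, ¬ J i → z i = x i)
    (hz2 : ∀ i < m, J i → z i = v s m [] none) : |G z - G x| ≤ δ := by
  classical
  -- the statement on level `l`
  have key : ∀ l c, l + c = m → ∀ w ∈ X, (∀ i < m, ¬ J i → w i = x i) →
      (∀ i < m, J i → x i = o false → w i = v s m [] none) →
      (∀ i < m, J i → x i = o true → ∃ rs : List ℕ, rs.length = l ∧ (∀ r ∈ rs, m ≤ r) ∧
        w i = v s c rs none) → |G w - G x| ≤ δ := by
    intro l c
    induction c generalizing l with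
    | zero =>
      intro hl w hw h1 h2 h3
      -- approximate from the neighbourhood of `x`
      by_contra hcon
      push Not at hcon
      obtain ⟨j0, hj0⟩ := hG w hw (|G w - G x| - δ) (by linarith)
      obtain ⟨j, hj, hjm⟩ : ∃ j, j0 ≤ j ∧ m ≤ j := ⟨j0 + m, by omega, by omega⟩
      obtain ⟨u, hu, huj⟩ := hd (fun i => if i < m ∧ J i ∧ x i = o false then
          v s m [] (some j) else w i) (by
        intro i hi
        have h4 : ¬ (i < m ∧ J i ∧ x i = o false) := fun h => hJk i hi h.2.1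
        simp only [h4, if_false]
        rw [h1 i (by omega) (hJk i hi)]
        exact hxk i hi) j
      have h5 := hj0 j hj u hu (by
        intro i hi
        rw [huj i hi]
        dsimp only
        by_cases h4 : i < m ∧ J i ∧ x i = o false
        · rw [if_pos h4, h2 i h4.1 h4.2.1 h4.2.2]
          exact near_even le_rfl
        · rw [if_neg h4]; exact near_refl _ _)
      have h6 := hx u hu (by
        intro i hi
        rw [huj i (by omega)]
        dsimp only
        by_cases h4 : i < m ∧ J i ∧ x i = o false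
        · rw [if_pos h4, h4.2.2]
          exact near_bot0 hms hjm
        · rw [if_neg h4]
          by_cases hJi : J i
          · rcases hJ i hJi with h7 | h7
            · exact absurd ⟨hi, hJi, h7⟩ h4
            · obtain ⟨rs, hr1, hr2, hr3⟩ := h3 i hi hJi h7
              rw [h7, hr3]
              exact near_bot1 hms hr2 (by omega)
          · rw [h1 i hi hJi]; exact near_refl _ _)
      have h7 : |G w - G x| ≤ |G w - G u| + |G u - G x| := abs_sub_le _ _ _
      have h8 : |G w - G u| = |G u - G w| := abs_sub_comm _ _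
      linarith
    | succ c ih =>
      intro hl w hw h1 h2 h3
      by_contra hcon
      push Not at hcon
      set η := (|G w - G x| - δ) / 2 with hη
      have hη0 : 0 < η := by rw [hη]; linarith
      obtain ⟨j0, hj0⟩ := hG w hw η hη0
      obtain ⟨j, hj, hjm⟩ : ∃ j, j0 ≤ j ∧ m ≤ j := ⟨j0 + m, by omega, by omega⟩
      -- the lists
      have hrs : ∃ R : ℕ → List ℕ, ∀ i < m, J i → x i = o true → (R i).length = l ∧
          (∀ r ∈ R i, m ≤ r) ∧ w i = v s (c + 1) (R i) none := by
        have : ∀ i, ∃ rs : List ℕ, i < m → J i → x i = o true → rs.length = l ∧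
            (∀ r ∈ rs, m ≤ r) ∧ w i = v s (c + 1) rs none := by
          intro i
          by_cases h4 : i < m ∧ J i ∧ x i = o true
          · obtain ⟨rs, h5⟩ := h3 i h4.1 h4.2.1 h4.2.2
            exact ⟨rs, fun _ _ _ => h5⟩
          · exact ⟨[], fun a b c => absurd ⟨a, b, c⟩ h4⟩
        choose R hR using this
        exact ⟨R, hR⟩
      obtain ⟨R, hR⟩ := hrs
      obtain ⟨w', hw', hw'j⟩ := hd (fun i => if i < m ∧ J i ∧ x i = o true then
          v s c (R i ++ [j]) none else w i) (by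
        intro i hi
        have h4 : ¬ (i < m ∧ J i ∧ x i = o true) := fun h => hJk i hi h.2.1
        simp only [h4, if_false]
        rw [h1 i (by omega) (hJk i hi)]
        exact hxk i hi) j
      have hw'1 : ∀ i < j, (i < m ∧ J i ∧ x i = o true) → w' i = v s c (R i ++ [j]) none := by
        intro i hi h4
        rw [hw'j i hi]; dsimp only; rw [if_pos h4]
      have hw'2 : ∀ i < j, ¬ (i < m ∧ J i ∧ x i = o true) → w' i = w i := by
        intro i hi h4
        rw [hw'j i hi]; dsimp only; rw [if_neg h4]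
      have hgw' : |G w' - G x| ≤ δ := by
        refine ih (l + 1) (by omega) w' hw' ?_ ?_ ?_
        · intro i hi hJi
          rw [hw'2 i (by omega) (fun h => hJi h.2.1)]
          exact h1 i hi hJi
        · intro i hi hJi hxi
          rw [hw'2 i (by omega) (fun h => by rw [hxi] at h; simp at h)]
          exact h2 i hi hJi hxi
        · intro i hi hJi hxi
          obtain ⟨hr1, hr2, -⟩ := hR i hi hJi hxi
          refine ⟨R i ++ [j], by simp [hr1], ?_, hw'1 i (by omega) ⟨hi, hJi, hxi⟩⟩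
          intro r hr
          rcases List.mem_append.1 hr with h | h
          · exact hr2 r h
          · simp only [List.mem_singleton] at h
            omega
      -- a common neighbour of `w` and `w'`
      obtain ⟨t0, ht0⟩ := hG w' hw' η hη0
      obtain ⟨t, ht, htj⟩ : ∃ t, t0 ≤ t ∧ j ≤ t := ⟨t0 + j, by omega, by omega⟩
      obtain ⟨u, hu, hut⟩ := hd (fun i => if i < m ∧ J i ∧ x i = o true then
          v s c (R i ++ [j]) (some t) else w' i) (by
        intro i hi
        have h4 : ¬ (i < m ∧ J i ∧ x i = o true) := fun h => hJk i hi h.2.1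
        simp only [h4, if_false]
        rw [hw'2 i (by omega) h4, h1 i (by omega) (hJk i hi)]
        exact hxk i hi) t
      have h5 := ht0 t ht u hu (by
        intro i hi
        rw [hut i hi]
        dsimp only
        by_cases h4 : i < m ∧ J i ∧ x i = o true
        · rw [if_pos h4, hw'1 i (by omega) h4]
          exact near_even le_rfl
        · rw [if_neg h4]; exact near_refl _ _)
      have h6 := hj0 j hj u hu (by
        intro i hi
        rw [hut i (by omega)]
        dsimp only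
        by_cases h4 : i < m ∧ J i ∧ x i = o true
        · rw [if_pos h4, (hR i h4.1 h4.2.1 h4.2.2).2.2]
          exact near_next le_rfl htj
        · rw [if_neg h4, hw'2 i hi h4]; exact near_refl _ _)
      have h7 : |G w - G x| ≤ |G w - G w'| + |G w' - G x| := abs_sub_le _ _ _
      have h8 : |G w - G w'| ≤ |G w - G u| + |G u - G w'| := abs_sub_le _ _ _
      have h9 : |G w - G u| = |G u - G w| := abs_sub_comm _ _
      have h10 : |G w - G x| - δ = 2 * η := by rw [hη]; ring
      linarith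
  refine key 0 m (by omega) z hz hz1 (fun i hi hJi _ => hz2 i hi hJi) fun i hi hJi _ => ?_
  exact ⟨[], rfl, by simp, hz2 i hi hJi⟩

/-- The chain argument. -/
theorem chain {X : Set (ℕ → Pt)} {y0 : ℕ → Pt} {k : ℕ} (hd : DenseIn X y0 k)
    {G : (ℕ → Pt) → ℝ} (hG : ContOn X G) {x x' : ℕ → Pt} (hx : x ∈ X) (hx' : x' ∈ X)
    (hk : Cyl y0 k x) (hk' : Cyl y0 k x')
    (hrel : ∀ i, x i = x' i ∨ (x i = o false ∧ x' i = o true) ∨ (x i = o true ∧ x' i = o false)) :
    G x = G x' := by
  classical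
  by_contra hne
  have hpos : 0 < |G x - G x'| := abs_pos.2 (sub_ne_zero.2 hne)
  set δ := |G x - G x'| / 4 with hδ
  have hδ0 : 0 < δ := by rw [hδ]; linarith
  obtain ⟨m1, hm1⟩ := hG x hx δ hδ0
  obtain ⟨m2, hm2⟩ := hG x' hx' δ hδ0
  obtain ⟨m, hkm, hmm1, hmm2⟩ : ∃ m, k ≤ m ∧ m1 ≤ m ∧ m2 ≤ m :=
    ⟨k + m1 + m2, by omega, by omega, by omega⟩
  have hxk : ∀ i < k, x i = x' i := fun i hi => (hk i hi).trans (hk' i hi).symm
  obtain ⟨z, hz, hzm⟩ := hd (fun i => if x i = x' i then x i else
      if i < k then x i else v m m [] none) (by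
    intro i hi
    by_cases h : x i = x' i
    · simp only [h, if_true]; rw [← h]; exact hk i hi
    · simp only [h, if_false, hi, if_true]; exact hk i hi) m
  have hz1 : ∀ i < m, x i = x' i → z i = x i := by
    intro i hi h
    rw [hzm i hi]; simp [h]
  have hz2 : ∀ i < m, x i ≠ x' i → z i = v m m [] none := by
    intro i hi h
    rw [hzm i hi]
    have h1 : ¬ i < k := fun h2 => h (hxk i h2)
    simp [h, h1]
  have e1 : |G z - G x| ≤ δ := by
    refine half_chain hd hG hkm le_rfl (fun i => x i ≠ x' i) (fun i hi h => h (hxk i hi)) hk ?_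
      (fun w hw h => hm1 m hmm1 w hw h) hz (fun i hi h => hz1 i hi (not_not.1 h)) hz2
    intro i hi
    rcases hrel i with h | ⟨h, -⟩ | ⟨h, -⟩
    exacts [absurd h hi, Or.inl h, Or.inr h]
  have e2 : |G z - G x'| ≤ δ := by
    refine half_chain hd hG hkm le_rfl (fun i => x i ≠ x' i) (fun i hi h => h (hxk i hi)) hk' ?_
      (fun w hw h => hm2 m hmm2 w hw h) hz (fun i hi h => ?_) hz2
    · intro i hi
      rcases hrel i with h | ⟨-, h⟩ | ⟨-, h⟩
      exacts [absurd h hi, Or.inr h, Or.inl h]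
    · rw [hz1 i hi (not_not.1 h)]; exact not_not.1 h
  have e3 : |G x - G x'| ≤ |G x - G z| + |G z - G x'| := abs_sub_le _ _ _
  have e4 : |G x - G z| = |G z - G x| := abs_sub_comm _ _
  have e5 : |G x - G x'| = 4 * δ := by rw [hδ]; ring
  linarith

theorem exists_dist (Y : Type*) (t' : TopologicalSpace Y)
    (h : @TopologicalSpace.MetrizableSpace Y t') : ∃ d : Y → Y → ℝ,
      (∀ a b, d a b = 0 → a = b) ∧ (∀ a, d a a = 0) ∧ (∀ a b c, d a c ≤ d a b + d b c) ∧
      (∀ a b, d a b = d b a) ∧ ∀ a δ, @IsOpen Y t' {v | d v a < δ} := by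
  let _ := t'
  have _ := h
  let _ : MetricSpace Y := TopologicalSpace.metrizableSpaceMetric Y
  exact ⟨dist, fun a b => dist_eq_zero.1, dist_self, dist_triangle, dist_comm,
    fun a δ => Metric.isOpen_ball⟩

theorem exists_dist' (Y : Type*) [t : TopologicalSpace Y] (hY : Submetrizable Y) :
    ∃ d : Y → Y → ℝ,
      (∀ a b, d a b = 0 → a = b) ∧ (∀ a, d a a = 0) ∧ (∀ a b c, d a c ≤ d a b + d b c) ∧
      (∀ a b, d a b = d b a) ∧ ∀ a δ, @IsOpen Y t {v | d v a < δ} := by
  obtain ⟨t', ht', hmet⟩ := hY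
  obtain ⟨d, hd0, hdd, hdt, hds, hdo⟩ := exists_dist Y t' hmet
  exact ⟨d, hd0, hdd, hdt, hds, fun a δ => ht' _ (hdo a δ)⟩

/-- **Key fact.** The codes of sequences of points are not all of the degrees of points of one
represented submetrizable space. -/
theorem key' (code : (ℕ → Pt) → Set ℕ)
    (code_near : ∀ {x w : ℕ → Pt} {q m : ℕ}, q ∈ code x → q < m →
      (∀ i < m, Near m (x i) (w i)) → q ∈ code w)
    (code_ne : ∀ {x y : ℕ → Pt} {i : ℕ}, x i = o false → y i = o true → code x ≠ code y)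
    (Y : Type*) [TopologicalSpace Y] (hY : Submetrizable Y) (U : ℕ → Set Y)
    (hU : TopologicalSpace.IsTopologicalBasis (Set.range U)) :
    ∃ w : ℕ → Pt, ∀ y : Y, ¬ EEqv (Nbase U y) (code w) := by
  classical
  by_contra hcon
  push Not at hcon
  obtain ⟨d, hd0, hdd, hdt, hds, hdo⟩ := exists_dist' Y hY
  let X : ℕ → Set (ℕ → Pt) := fun n => {w | ∃ y : Y,
    Nbase U y = app (Op n.unpair.1) (code w) ∧ code w = app (Op n.unpair.2) (Nbase U y)}
  have hX : ∀ w, ∃ n, w ∈ X n := by
    intro w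
    obtain ⟨y, hy1, hy2⟩ := hcon w
    obtain ⟨i, hi⟩ := ered_iff.1 hy1
    obtain ⟨j, hj⟩ := ered_iff.1 hy2
    refine ⟨Nat.pair i j, y, ?_, ?_⟩
    · rw [Nat.unpair_pair]; exact hi
    · rw [Nat.unpair_pair]; exact hj
  obtain ⟨n, y0, k, hdn, x, hx, x', hx', hk, hk', hne, hrel⟩ :=
    mono (o1 := o false) (o2 := o true) (by simp) X hX
  -- the point of `Y` coded by a member of `X n`
  have hpt : ∀ w, ∃ y : Y, w ∈ X n → (Nbase U y = app (Op n.unpair.1) (code w) ∧
      code w = app (Op n.unpair.2) (Nbase U y)) := by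
    intro w
    by_cases h : w ∈ X n
    · obtain ⟨y, hy⟩ := h
      exact ⟨y, fun _ => hy⟩
    · obtain ⟨y, -⟩ := hx
      exact ⟨y, fun h' => absurd h' h⟩
  choose pt hpt using hpt
  have hG : ContOn (X n) fun w => d (pt x) (pt w) := by
    intro w hw δ hδ
    have hO : IsOpen {v | d v (pt w) < δ} := hdo (pt w) δ
    have hmem : pt w ∈ {v | d v (pt w) < δ} := by
      show d (pt w) (pt w) < δ
      rw [hdd]; exact hδ
    obtain ⟨_, ⟨a, rfl⟩, ha1, ha2⟩ := hU.exists_subset_of_mem_open hmem hO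
    have h1 : a ∈ app (Op n.unpair.1) (code w) := by rw [← (hpt w hw).1]; exact ha1
    obtain ⟨u, hu1, hu2⟩ := h1
    refine ⟨u, fun m hm w' hw' hN => ?_⟩
    have h2 : a ∈ Nbase U (pt w') := by
      rw [(hpt w' hw').1]
      exact ⟨u, hu1, fun q hq => code_near (hu2 hq) (by have := D_bound hq; omega) hN⟩
    have h3 : d (pt w') (pt w) < δ := ha2 h2
    have h4 := hdt (pt x) (pt w) (pt w')
    have h5 := hdt (pt x) (pt w') (pt w)
    have h6 := hds (pt w) (pt w')
    rw [abs_lt]
    constructor <;> linarith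
  have h1 := chain hdn hG hx hx' hk hk' hrel
  have h2 : d (pt x) (pt x') = 0 := by
    have h3 : d (pt x) (pt x) = d (pt x) (pt x') := h1
    rw [← h3]; exact hdd _
  have h3 : pt x = pt x' := hd0 _ _ h2
  have h4 : code x = code x' := by rw [(hpt x hx).2, (hpt x' hx').2, h3]
  obtain ⟨i, hi⟩ := Function.ne_iff.1 hne
  rcases hrel i with h5 | ⟨h5, h6⟩ | ⟨h5, h6⟩
  · exact hi h5
  · exact code_ne h5 h6 h4
  · exact code_ne h6 h5 h4.symm

/-- **Key fact.** The codes of sequences of points are not all of the degrees of points of one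
represented submetrizable space. -/
theorem key (Y : Type*) [TopologicalSpace Y] (hY : Submetrizable Y) (U : ℕ → Set Y)
    (hU : TopologicalSpace.IsTopologicalBasis (Set.range U)) :
    ∃ w : ℕ → Pt, ∀ y : Y, ¬ EEqv (Nbase U y) (code w) :=
  key' code (fun h1 h2 h3 => code_near h1 h2 h3) (fun h1 h2 => code_ne h1 h2) Y hY U hU

end Pool.Agent.H454R3.Roy
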